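import Pool.Agent.ZSR.Main

set_option autoImplicit false

namespace Pool.Agent.Results.MP_73989e_co.RamseyNumberBound

universe u

open scoped Classical in
/-- Every colouring `f` of the edges of the complete graph `K_N` with colours in `ℤ/p` admits a
subgraph `G'` of `K_N`, isomorphic to `G`, the colours of whose edges sum to `0`. -/
def HasZeroSumCopies {V : Type u} (p : ℕ) (G : SimpleGraph V) (N : ℕ) : Prop :=
  ∀ f : (⊤ : SimpleGraph (Fin N)).edgeSet → ZMod p,
    ∃ G' : (⊤ : SimpleGraph (Fin N)).Subgraph,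
      Nonempty (G ≃g G'.coe) ∧
        ∑ e ∈ Finset.univ.filter (fun e : (⊤ : SimpleGraph (Fin N)).edgeSet =>
          (e : Sym2 (Fin N)) ∈ G'.edgeSet), f e = 0

open scoped Classical in
theorem edge_iff {V : Type u} {G : SimpleGraph V} {N : ℕ}
    (G' : (⊤ : SimpleGraph (Fin N)).Subgraph) (ι : G ≃g G'.coe) (e : Sym2 (Fin N)) :
    e ∈ G'.edgeSet ↔ ∃ e₀ ∈ G.edgeSet, Sym2.map (fun v => ((ι v : G'.verts) : Fin N)) e₀ = e := by
  constructor
  · induction e with
    | _ a b =>
      intro h
      rw [SimpleGraph.Subgraph.mem_edgeSet] at h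
      have ha := G'.edge_vert h
      have hb := G'.edge_vert h.symm
      refine ⟨s(ι.symm ⟨a, ha⟩, ι.symm ⟨b, hb⟩), ?_, ?_⟩
      · rw [SimpleGraph.mem_edgeSet]
        rw [← ι.map_adj_iff]
        simpa using h
      · simp
  · rintro ⟨e₀, he₀, rfl⟩
    induction e₀ with
    | _ a b =>
      rw [SimpleGraph.mem_edgeSet] at he₀
      rw [← ι.map_adj_iff] at he₀
      simpa using he₀

open scoped Classical in
theorem sum_eq {V : Type u} [Fintype V] {G : SimpleGraph V} {N p : ℕ}
    (G' : (⊤ : SimpleGraph (Fin N)).Subgraph) (ι : G ≃g G'.coe) (f' : Sym2 (Fin N) → ZMod p) :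
    ∑ e ∈ Finset.univ.filter (fun e : (⊤ : SimpleGraph (Fin N)).edgeSet =>
        (e : Sym2 (Fin N)) ∈ G'.edgeSet), f' (e : Sym2 (Fin N))
      = ∑ e ∈ G.edgeFinset, f' (Sym2.map (fun v => ((ι v : G'.verts) : Fin N)) e) := by
  symm
  have hinj : Function.Injective (fun v => ((ι v : G'.verts) : Fin N)) := by
    intro x y hxy
    exact ι.injective (Subtype.ext hxy)
  have hmem : ∀ e ∈ G.edgeFinset,
      Sym2.map (fun v => ((ι v : G'.verts) : Fin N)) e ∈ G'.edgeSet := by
    intro e he
    rw [edge_iff G' ι]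
    exact ⟨e, SimpleGraph.mem_edgeFinset.mp he, rfl⟩
  refine Finset.sum_bij
    (fun e he => ⟨Sym2.map (fun v => ((ι v : G'.verts) : Fin N)) e,
      G'.edgeSet_subset (hmem e he)⟩) ?_ ?_ ?_ ?_
  · intro e he
    simp only [Finset.mem_filter, Finset.mem_univ, true_and]
    exact hmem e he
  · intro e₁ h₁ e₂ h₂ h
    exact Sym2.map.injective hinj (Subtype.ext_iff.mp h)
  · intro e he
    simp only [Finset.mem_filter, Finset.mem_univ, true_and] at he
    obtain ⟨e₀, h₀, h⟩ := (edge_iff G' ι e).mp he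
    exact ⟨e₀, SimpleGraph.mem_edgeFinset.mpr h₀, Subtype.ext h⟩
  · intro e he
    rfl

/-- Reformulation with injections. -/
theorem iff_embedding {V : Type u} [Fintype V] (p : ℕ) (G : SimpleGraph V) (N : ℕ)
    [DecidableRel G.Adj] [DecidableEq V] :
    HasZeroSumCopies p G N ↔ ∀ f' : Sym2 (Fin N) → ZMod p, ∃ φ : V ↪ Fin N,
      ∑ e ∈ G.edgeFinset, f' (Sym2.map φ e) = 0 := by
  classical
  constructor
  · intro h f'
    obtain ⟨G', ⟨ι⟩, hs⟩ := h (fun e => f' e)
    refine ⟨⟨fun v => ((ι v : G'.verts) : Fin N), ?_⟩, ?_⟩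
    · intro x y hxy
      exact ι.injective (Subtype.ext hxy)
    · have h1 := sum_eq G' ι f'
      have h2 := h1.symm.trans hs
      refine Eq.trans (Finset.sum_congr ?_ ?_) h2
      · ext e
        simp only [SimpleGraph.mem_edgeFinset]
      · intro e _
        rfl
  · intro h f
    obtain ⟨φ, hφ⟩ := h (fun e => if he : e ∈ (⊤ : SimpleGraph (Fin N)).edgeSet then f ⟨e, he⟩ else 0)
    let G' : (⊤ : SimpleGraph (Fin N)).Subgraph :=
      { verts := Set.range φ
        Adj := fun a b => ∃ u v, G.Adj u v ∧ φ u = a ∧ φ v = b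
        adj_sub := by
          rintro a b ⟨u, v, huv, rfl, rfl⟩
          exact fun hne => huv.ne (φ.injective hne)
        edge_vert := by
          rintro a b ⟨u, v, huv, rfl, rfl⟩
          exact ⟨u, rfl⟩
        symm := ⟨by
          rintro a b ⟨u, v, huv, rfl, rfl⟩
          exact ⟨v, u, huv.symm, rfl, rfl⟩⟩ }
    let ι : G ≃g G'.coe :=
      { toEquiv := Equiv.ofInjective φ φ.injective
        map_rel_iff' := by
          intro a b
          constructor
          · rintro ⟨u, v, huv, h1, h2⟩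
            have e1 : u = a := φ.injective h1
            have e2 : v = b := φ.injective h2
            rw [← e1, ← e2]
            exact huv
          · intro hab
            exact ⟨a, b, hab, rfl, rfl⟩ }
    refine ⟨G', ⟨ι⟩, ?_⟩
    have h1 := sum_eq G' ι
      (fun e => if he : e ∈ (⊤ : SimpleGraph (Fin N)).edgeSet then f ⟨e, he⟩ else 0)
    have h2 : (fun v => ((ι v : G'.verts) : Fin N)) = φ := by
      funext v
      rfl
    rw [h2] at h1
    have h3 := h1.trans ((by
      apply Finset.sum_congr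
      · ext e
        simp only [SimpleGraph.mem_edgeFinset]
      · intro e _
        rfl : _ = _).trans hφ)
    have h4 : (∑ e ∈ Finset.univ.filter (fun e : (⊤ : SimpleGraph (Fin N)).edgeSet =>
        (e : Sym2 (Fin N)) ∈ G'.edgeSet), f e) =
        ∑ e ∈ Finset.univ.filter (fun e : (⊤ : SimpleGraph (Fin N)).edgeSet =>
        (e : Sym2 (Fin N)) ∈ G'.edgeSet),
          (if he : (e : Sym2 (Fin N)) ∈ (⊤ : SimpleGraph (Fin N)).edgeSet then
            f ⟨e, he⟩ else 0) := by
      apply Finset.sum_congr rfl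
      intro e _
      rw [dif_pos e.2]
    exact h4.trans h3

theorem mono {V : Type u} [Fintype V] (p : ℕ) (G : SimpleGraph V) {N M : ℕ} (hNM : N ≤ M)
    (h : HasZeroSumCopies p G N) : HasZeroSumCopies p G M := by
  classical
  rw [iff_embedding] at h ⊢
  intro f'
  obtain ⟨φ, hφ⟩ := h (fun e => f' (Sym2.map (Fin.castLE hNM) e))
  refine ⟨φ.trans (Fin.castLEEmb hNM), ?_⟩
  rw [← hφ]
  apply Finset.sum_congr rfl
  intro e _
  rw [Sym2.map_map]
  rfl

/-- For every prime `p` there is a constant `c` such that every finite graph `G`, on a vertex set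
of any size and in any universe, with `p ∣ e(G)` has a zero-sum Ramsey number
`R = R(G, ℤ/p) ≤ |V(G)| + c`: the `N` such that every colouring of `K_N` has a zero-sum copy of
`G` are exactly the `N ≥ R`. -/
theorem result (p : ℕ) (hp : p.Prime) :
    ∃ c : ℕ, ∀ (V : Type u) [Fintype V] (G : SimpleGraph V), p ∣ G.edgeSet.ncard →
      ∃ R : ℕ, {N : ℕ | HasZeroSumCopies p G N} = Set.Ici R ∧
        R ≤ Fintype.card V + c := by
  classical
  have : Fact p.Prime := ⟨hp⟩
  obtain ⟨c, hc⟩ := Pool.Agent.ZSR.main p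
  refine ⟨c, ?_⟩
  intro V _ G hG
  have hkey : HasZeroSumCopies p G (Fintype.card V + c) := by
    rw [iff_embedding]
    obtain ⟨n, hn⟩ : ∃ n, n = Fintype.card V := ⟨_, rfl⟩
    rw [← hn]
    intro f
    have ε : V ≃ Fin n := by rw [hn]; exact Fintype.equivFin V
    let G₁ : SimpleGraph (Fin n) := G.map ε.toEmbedding
    have hedge : G₁.edgeFinset = G.edgeFinset.map ε.toEmbedding.sym2Map := by
      ext e
      simp only [G₁, SimpleGraph.mem_edgeFinset, SimpleGraph.edgeSet_map, Finset.mem_map,
        Set.mem_image]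
    have hcard : p ∣ G₁.edgeFinset.card := by
      rw [hedge, Finset.card_map]
      rwa [Set.ncard_eq_toFinset_card'] at hG
    have hmem : ∀ e : Sym2 (Fin n), e ∈ (Finset.univ : Finset (Fin n)).sym2 := by
      intro e
      rw [Finset.mem_sym2_iff]
      intro a _
      exact Finset.mem_univ a
    have hsub : G₁.edgeFinset ⊆ (Finset.univ : Finset (Fin n)).sym2 := fun e _ => hmem e
    have hsum : ∀ g : Sym2 (Fin n) → ZMod p,
        ∑ e ∈ (Finset.univ : Finset (Fin n)).sym2,
          (if e ∈ G₁.edgeFinset then (1 : ZMod p) else 0) * g e = ∑ e ∈ G₁.edgeFinset, g e := by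
      intro g
      rw [← Finset.sum_subset hsub]
      · apply Finset.sum_congr rfl
        intro e he
        rw [if_pos he, one_mul]
      · intro e _ he
        rw [if_neg he, zero_mul]
    obtain ⟨ψ, h1, -, h3⟩ := hc (V := Fin n) (Ω := Fin (n + c))
      (fun e => if e ∈ G₁.edgeFinset then (1 : ZMod p) else 0)
      (by
        intro v
        rw [if_neg]
        rw [SimpleGraph.mem_edgeFinset, SimpleGraph.mem_edgeSet]
        exact G₁.loopless.irrefl v)
      f Finset.univ Finset.univ
      (by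
        unfold Pool.Agent.ZSR.Q
        have h := hsum (fun _ => 1)
        simp only [mul_one] at h
        rw [h, Finset.sum_const, nsmul_eq_mul, mul_one]
        exact (ZMod.natCast_eq_zero_iff _ _).mpr hcard)
      (by simp)
    have hinj : Function.Injective ψ := by
      intro x y hxy
      exact h1 (Finset.mem_coe.mpr (Finset.mem_univ x)) (Finset.mem_coe.mpr (Finset.mem_univ y)) hxy
    refine ⟨ε.toEmbedding.trans ⟨ψ, hinj⟩, ?_⟩
    have h4 := (hsum (fun e => f (Sym2.map ψ e))).symm.trans h3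
    rw [hedge, Finset.sum_map] at h4
    rw [← h4]
    apply Finset.sum_congr rfl
    intro e _
    simp only [Function.Embedding.sym2Map_apply, Sym2.map_map]
    rfl
  have hne : ∃ N, HasZeroSumCopies p G N := ⟨_, hkey⟩
  refine ⟨Nat.find hne, ?_, Nat.find_min' hne hkey⟩
  ext N
  simp only [Set.mem_ofPred_eq, Set.mem_Ici]
  exact ⟨fun h => Nat.find_min' hne h, fun h => mono p G h (Nat.find_spec hne)⟩

end Pool.Agent.Results.MP_73989e_co.RamseyNumberBound
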